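import Pool.Agent.H933R2.HopfN.Geo
import Pool.Agent.H933R2.HopfN.All2

/-!
# Sign of the Euler characteristic under negative pinching of order `1 / sqrt(dimension)`

Let `M` be a closed Riemannian manifold of dimension `2 m`, such that at every point `p` all
sectional curvatures are within `|κ(p)| / (100 sqrt m)` of a number `κ(p) < 0`. Then the
Gauss-Bonnet-Chern integrand has the sign `(-1)^m` at every point, and is within a factor `1/2` of
its value for constant curvature `mean(p)` (the mean of the sectional curvatures at `p`). So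
`(-1)^m χ(M) > 0`, as Singer's conjecture (Q2) predicts. Pinching constants used before for this
are of order `1 / m`.
-/

open MeasureTheory Pool.Agent.H933R2.HopfN

namespace Pool.Agent.Results.MP_f80465_gt.PinchedEulerSign

/-- (1) the pointwise estimate, for both signs of `κ`; (2) the sign of the integral for `κ < 0`. -/
theorem result (m : ℕ) (hm : 2 ≤ m) (M : Type) (K : Geo m M) :
    (∀ (p : M) (κ : ℝ), κ ≠ 0 → K.SecNear p κ (|κ| / (100 * Real.sqrt m)) →
      |K.mean p - κ| ≤ |κ| / (100 * Real.sqrt m) ∧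
      |K.gbc p - roundGB m (K.mean p)| ≤ 1 / 2 * roundGB m |K.mean p| ∧
      0 < (κ / |κ|) ^ m * K.gbc p) ∧
    ∀ [MeasurableSpace M] (μ : Measure M), μ ≠ 0 → Integrable K.gbc μ →
      (∀ p, ∃ κ : ℝ, κ < 0 ∧ K.SecNear p κ (|κ| / (100 * Real.sqrt m))) →
      0 < (-1 : ℝ) ^ m * ∫ p, K.gbc p ∂μ :=
  ⟨fun p κ hκ h => K.cf.secpoint all_fins emb_main hm p κ hκ h,
    fun μ hμ hint h => K.cf.secint all_fins emb_main hm μ hμ hint h⟩

end Pool.Agent.Results.MP_f80465_gt.PinchedEulerSign
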